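import Pool.Agent.H413R3.Part.One

set_option autoImplicit false

/-!
# Even values of the partition function in progressions modulo powers of two (MP_ebc808_nt)

For all integers `x ≥ 2 ^ 15`, all `b` with `17 * 2 ^ b ≤ (log x) ^ 2` and every residue `ρ`, at least
`√x log x / (25 * 2 ^ b)` of the integers `n ≤ x` with `n ≡ ρ (mod 2 ^ b)` have an even number of
partitions. (The starting repository has `√x log x / 50` for the modulus 1.)

Method: the one of `H397R2/PP`, localised. With `M = 4 ^ k`, the sum of the `p (n - M g_j)` over the
generalised pentagonal numbers is even when `8 n + (M - 1) / 3` is exactly divisible by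
`3 ^ (2 ^ (k - 1) - 1)`, and all the arguments `n - M g_j` lie in the class of `n` modulo `M`. The
`n` with this divisibility are equidistributed modulo `M`, and the number of `j` is odd for about
half of them in each class.
-/

namespace Pool.Agent.Results.MP_ebc808_nt.EvenProgressions

theorem result (x b ρ : ℕ) (hx : 2 ^ 15 ≤ x) (hb : 17 * (2 : ℝ) ^ b ≤ Real.log x ^ 2) :
    Real.sqrt x * Real.log x / (25 * 2 ^ b) ≤
      (((Finset.range (x + 1)).filter (fun n => n % 2 ^ b = ρ % 2 ^ b ∧
        Even (Fintype.card (Nat.Partition n)))).card : ℝ) :=
  Pool.Agent.H413R3.Part.even_values_AP x b ρ hx hb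

end Pool.Agent.Results.MP_ebc808_nt.EvenProgressions
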