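import Pool.Agent.H413R3.Odd.Fin

set_option autoImplicit false

/-!
# Odd values of the partition function in progressions modulo powers of two (MP_ebc808_nt)

For every `ε > 0`, all large `x`, all `b` with `2 ^ b ≤ (log x) ^ (2 - ε)` and every residue `ρ`, at
least `√x (log x) ^ (1 - ε) / 2 ^ b` of the integers `n ≤ x` with `n ≡ ρ (mod 2 ^ b)` have an odd
number of partitions. (The starting repository has this for the modulus 1, `H307R2/OP`.)

Method: the one of `H307R2/OP`, localised. The numbers `N` with `2 ^ (r - 1) - 1` prime factors used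
there satisfy `24 n + 4 ^ r u ^ 2 = 3 N + 1` with `p n` odd, and `8 * 2 ^ b ∣ 4 ^ r`, so the class of
`n` modulo `2 ^ b` is that of `N` modulo `8 * 2 ^ b`; the largest prime factor of `N` is
equidistributed in these classes (Siegel-Walfisz), and the number of tuples that are lost is
smaller than the number of all tuples by more than every power of the logarithm.
-/

namespace Pool.Agent.Results.MP_ebc808_nt.OddProgressions

theorem result : ∀ ε : ℝ, 0 < ε → ∃ x0 : ℝ, ∀ x : ℕ, x0 ≤ x → ∀ b ρ : ℕ,
    (2 : ℝ) ^ b ≤ Real.log x ^ (2 - ε) →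
    Real.sqrt x * Real.log x ^ (1 - ε) / 2 ^ b ≤
      (((Finset.range (x + 1)).filter (fun n => n % 2 ^ b = ρ % 2 ^ b ∧
        Odd (Fintype.card (Nat.Partition n)))).card : ℝ) :=
  Pool.Agent.H413R3.Odd.finalAP

end Pool.Agent.Results.MP_ebc808_nt.OddProgressions
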